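import Mathlib

namespace Pool.Agent.Results.MP_284f77_nt.Yes

open PowerSeries Finset Nat

/-- the product of the squares of 4j-1 -/
def P1 (N : ℕ) : ℤ := ∏ j ∈ Icc 1 N, (4 * (j : ℤ) - 1) ^ 2

/-- the product of the squares of 4j-3 -/
def P3 (N : ℕ) : ℤ := ∏ j ∈ Icc 1 N, (4 * (j : ℤ) - 3) ^ 2

/-- the sequence u -/
def u (n : ℕ) : ℤ :=
  P1 n - ∑ m : Fin n, ((2 * n + 1).choose (2 * m + 1) : ℤ) * P3 (n - m) * u m
decreasing_by exact m.2

/-- extension of scalars -/
noncomputable def ψ : ℤ_[2]⟦X⟧ →+* ℚ_[2]⟦X⟧ := PowerSeries.map PadicInt.Coe.ringHom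

theorem lift {f : ℚ_[2]⟦X⟧} (h : ∀ n, coeff n f ∈ PadicInt.subring 2) : ∃ g, ψ g = f :=
  ⟨PowerSeries.mk fun n => ⟨coeff n f, h n⟩, by ext; simp [ψ]⟩

theorem ψ_coeff (g : ℤ_[2]⟦X⟧) (n : ℕ) : coeff n (ψ g) = (coeff n g : ℤ_[2]) := rfl

theorem ψ_inj : Function.Injective ψ := PowerSeries.map_injective _ Subtype.val_injective

theorem ψ_d (g : ℤ_[2]⟦X⟧) : ψ (d⁄dX _ g) = d⁄dX _ (ψ g) := by
  ext
  simp [ψ_coeff, coeff_derivative]

theorem fz (n : ℕ) : (n ! : ℚ_[2]) ≠ 0 := cast_ne_zero.2 (factorial_ne_zero n)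

theorem odd_inv {m : ℕ} (h : Odd m) : (m : ℚ_[2])⁻¹ ∈ PadicInt.subring 2 := by
  rw [PadicInt.mem_subring_iff, norm_inv, Padic.norm_natCast_eq_one_iff.2 (coprime_two_left.2 h),
    inv_one]

theorem two_pow (n : ℕ) : (2 ^ n / (n + 1)! : ℚ_[2]) ∈ PadicInt.subring 2 := by
  obtain ⟨k, m, hm, h⟩ := exists_eq_two_pow_mul_odd (factorial_ne_zero (n + 1))
  have h1 := (padicValNat_dvd_iff_le (factorial_ne_zero (n + 1))).1 (Dvd.intro _ h.symm)
  have h2 := padicValNat_factorial_lt_of_ne_zero 2 n.succ_ne_zero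
  obtain ⟨j, rfl⟩ := Nat.exists_eq_add_of_le (show k ≤ n by
    simp only [succ_eq_add_one] at h2; omega)
  rw [h, pow_add, cast_mul, cast_pow, cast_ofNat, mul_div_mul_left _ _ (pow_ne_zero _ two_ne_zero),
    div_eq_mul_inv]
  exact mul_mem (pow_mem (ofNat_mem _ 2) _) (odd_inv hm)

theorem ex_exp {G : ℤ_[2]⟦X⟧} (hG : constantCoeff G = 0) :
    ∃ h : ℤ_[2]⟦X⟧, constantCoeff h = 0 ∧ d⁄dX _ h = (1 + 2 * h) * d⁄dX _ G := by
  obtain ⟨H, hH⟩ := lift (f := X * PowerSeries.mk fun n => (2 ^ n / (n + 1)! : ℚ_[2])) fun n => by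
    cases n with
    | zero => simp
    | succ n => simpa only [coeff_succ_X_mul, coeff_mk] using two_pow n
  have h1 : d⁄dX _ H = 1 + 2 * H := ψ_inj (by
    rw [ψ_d, map_add, map_mul, hH, map_one, map_ofNat]
    ext n
    rw [coeff_derivative, coeff_succ_X_mul, coeff_mk, map_add, two_mul, map_add]
    cases n with
    | zero => simp
    | succ n =>
      have := fz (n + 1)
      have := fz (n + 1 + 1)
      rw [coeff_succ_X_mul, coeff_mk, coeff_one, if_neg n.succ_ne_zero]
      field_simp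
      rw [factorial_succ (n + 1)]
      push_cast
      ring)
  have h2 := HasSubst.of_constantCoeff_zero' hG
  refine ⟨H.subst G, constantCoeff_subst_eq_zero hG _ (Subtype.val_injective ?_), ?_⟩
  · have := ψ_coeff H 0
    rw [hH] at this
    simpa using this.symm
  · rw [derivative_subst h2, h1, ← coe_substAlgHom h2, map_add, map_mul, map_one, map_ofNat]

/-- the leading coefficient of the differential equation -/
noncomputable def A : ℚ_[2]⟦X⟧ := 1 - 4 * X ^ 2

theorem cA (f : ℚ_[2]⟦X⟧) (n : ℕ) :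
    coeff (n + 1) (A * d⁄dX _ f) = (n + 2) * coeff (n + 2) f - 4 * n * coeff n f := by
  rw [A, sub_mul, one_mul, map_sub, coeff_derivative, mul_assoc, ← map_ofNat C 4, coeff_C_mul]
  cases n with
  | zero => simp [coeff_X_pow_mul', mul_comm, one_add_one_eq_two]
  | succ n =>
    rw [show n + 1 + 1 = n + 2 from rfl, coeff_X_pow_mul, coeff_derivative]
    push_cast
    ring

theorem dA : d⁄dX _ A = -8 * X := by
  rw [A, map_sub, derivative_one, ← map_ofNat C 4, Derivation.leibniz, derivative_C, derivative_pow,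
    derivative_X, map_ofNat]
  simp only [smul_eq_mul]
  push_cast
  ring

theorem ode {f : ℚ_[2]⟦X⟧} (h : ∀ n : ℕ, (n + 1) * (n + 2) * coeff (n + 2) f =
    (2 * n + 1) ^ 2 * coeff n f) : d⁄dX _ (A * d⁄dX _ f) = f := by
  ext n
  rw [coeff_derivative, cA]
  linear_combination h n

theorem sq_ode {f g : ℚ_[2]⟦X⟧} (hf : d⁄dX _ (A * d⁄dX _ f) = f) (hg : d⁄dX _ (A * d⁄dX _ g) = g)
    (k : ℕ) : (k + 2) * (k + 3) * (k + 4) * coeff (k + 4) (f * g) =
      4 * (k + 2) * (2 * (k + 2) ^ 2 + 1) * coeff (k + 2) (f * g) -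
        16 * (k + 1) ^ 3 * coeff k (f * g) := by
  have h1 : A * d⁄dX _ (f * g) = A * d⁄dX _ f * g + f * (A * d⁄dX _ g) := by
    simp only [Derivation.leibniz, smul_eq_mul]
    ring
  have h2 : A * d⁄dX _ (A * d⁄dX _ (f * g)) = A * (f * g) + A * (f * g) +
      (A * d⁄dX _ f * (A * d⁄dX _ g) + A * d⁄dX _ f * (A * d⁄dX _ g)) := by
    rw [h1, map_add, Derivation.leibniz _ _ g, Derivation.leibniz _ f, hf, hg]
    simp only [smul_eq_mul]
    ring
  have h3 : d⁄dX _ (A * d⁄dX _ (A * d⁄dX _ (f * g))) =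
      C 4 * (A * d⁄dX _ (f * g)) - C 16 * (X * (f * g)) := by
    rw [h2, map_add, map_add, map_add, Derivation.leibniz _ A, dA,
      Derivation.leibniz _ (A * d⁄dX _ f), hf, hg, map_ofNat, map_ofNat]
    simp only [smul_eq_mul]
    linear_combination (-2) * h1
  have h4 := congrArg (coeff (k + 1)) h3
  rw [coeff_derivative, cA, cA, cA, map_sub, coeff_C_mul, coeff_C_mul, cA, coeff_succ_X_mul] at h4
  push_cast at h4
  linear_combination h4

/-- the even solution -/
noncomputable def a : ℚ_[2]⟦X⟧ := PowerSeries.mk fun n => P3 n / (2 * n)!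

/-- the odd solution -/
noncomputable def b : ℚ_[2]⟦X⟧ := PowerSeries.mk fun n => P1 n / (2 * n + 1)!

theorem wab : (PowerSeries.mk fun n => (u n / (2 * n + 1)! : ℚ_[2])) * a = b := by
  ext n
  rw [coeff_mul, a, b]
  simp only [coeff_mk]
  rw [Nat.sum_antidiagonal_eq_sum_range_succ fun i j => (u i / (2 * i + 1)! : ℚ_[2]) *
    (P3 j / (2 * j)!), sum_range_succ, u, Fin.sum_univ_eq_sum_range fun m =>
      ((2 * n + 1).choose (2 * m + 1) : ℤ) * P3 (n - m) * u m]
  push_cast
  rw [sub_div, sum_div, Nat.sub_self, sum_congr rfl (g := fun m => ((2 * n + 1).choose (2 * m + 1) :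
    ℚ_[2]) * P3 (n - m) * u m / (2 * n + 1)!) fun m hm => ?_]
  · simp [P3]
  · have := mem_range.1 hm
    have := fz (2 * n + 1)
    rw [cast_choose _ (by omega), show 2 * n + 1 - (2 * m + 1) = 2 * (n - m) by omega]
    field_simp

theorem oX (f : ℚ_[2]⟦X⟧) (m : ℕ) : coeff (2 * m) (X * expand 2 two_ne_zero f) = 0 := by
  cases m with
  | zero => simp
  | succ m => rw [show 2 * (m + 1) = 2 * m + 1 + 1 from rfl, coeff_succ_X_mul,
       coeff_expand_of_not_dvd _ _ _ (by omega)]

theorem ode_a : d⁄dX _ (A * d⁄dX _ (expand 2 two_ne_zero a)) = expand 2 two_ne_zero a :=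
  ode fun n => by
    obtain ⟨m, rfl | rfl⟩ := n.even_or_odd'
    · rw [← mul_add_one, coeff_expand_mul, coeff_expand_mul, a, coeff_mk, coeff_mk, P3,
        prod_Icc_succ_top (by omega), ← P3, mul_add_one]
      have := fz (2 * m)
      have := fz (2 * m + 2)
      field_simp
      rw [factorial_succ, factorial_succ]
      push_cast
      ring
    · rw [coeff_expand_of_not_dvd _ _ _ (by omega), coeff_expand_of_not_dvd _ _ _ (by omega)]
      simp

theorem ode_b : d⁄dX _ (A * d⁄dX _ (X * expand 2 two_ne_zero b)) = X * expand 2 two_ne_zero b :=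
  ode fun n => by
    obtain ⟨m, rfl | rfl⟩ := n.even_or_odd'
    · rw [← mul_add_one, oX, oX]
      simp
    · rw [coeff_succ_X_mul, coeff_succ_X_mul, ← mul_add_one,
        coeff_expand_mul, coeff_expand_mul, b, coeff_mk, coeff_mk, P1,
        prod_Icc_succ_top (by omega), ← P1, mul_add_one]
      have := fz (2 * m + 1)
      have := fz (2 * m + 2 + 1)
      field_simp
      rw [factorial_succ (2 * m + 2), factorial_succ (2 * m + 1)]
      push_cast
      ring

theorem result (n : ℕ) : Odd ((u n : ℚ) / (2 * n + 1)!).den := by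
  set y := expand 2 two_ne_zero a with hy
  set z := X * expand 2 two_ne_zero b with hz
  have a0 : constantCoeff a = 1 := by simp [a, P3]
  have b0 : constantCoeff b = 1 := by simp [b, P1]
  have hf : d⁄dX _ (A * d⁄dX _ (y + z)) = y + z := by rw [map_add, mul_add, map_add, ode_a, ode_b]
  have hg : d⁄dX _ (A * d⁄dX _ (y - z)) = y - z := by rw [map_sub, mul_sub, map_sub, ode_a, ode_b]
  set P := a * a - X * (b * b) with hP
  have h1 : (y + z) * (y - z) = expand 2 two_ne_zero P := by
    rw [hP, map_sub, map_mul, map_mul, map_mul, expand_X, hz]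
    ring
  have P0 : constantCoeff P = 1 := by simp [hP, a0]
  have h2 : ∀ m, coeff m P * m ! / 2 ^ m ∈ PadicInt.subring 2 := fun m => by
    induction m using Nat.twoStepInduction with
    | zero => simp [P0]
    | one =>
      have : coeff 1 a = 1 / 2 := by simp [a, P3]; norm_num
      simp [hP, coeff_succ_X_mul, coeff_one_mul, a0, b0, this]
      norm_num
    | more m i1 i2 =>
      have h := sq_ode hf hg (2 * m)
      rw [h1, show 2 * m + 4 = 2 * (m + 2) by ring, ← mul_add_one, coeff_expand_mul,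
        coeff_expand_mul, coeff_expand_mul] at h
      convert mul_mem (sub_mem (mul_mem (natCast_mem _ (8 * (m + 1) ^ 2 + 1)) i2)
        (mul_mem (natCast_mem _ ((2 * m + 1) ^ 3)) i1)) (odd_inv (odd_two_mul_add_one (m + 1))) using 1
      rw [factorial_succ, factorial_succ, eq_mul_inv_iff_mul_eq₀ (cast_ne_zero.2 (by omega)),
        pow_succ 2 (m + 1), pow_succ 2 m, div_mul_eq_div_div, div_mul_eq_div_div,
        div_mul_eq_div_div]
      push_cast at h ⊢
      linear_combination (m ! / 2 ^ m / 16 : ℚ_[2]) * h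
  obtain ⟨P', hP'⟩ := lift (f := P) fun m => by
    cases m with
    | zero => simp [P0]
    | succ m =>
      convert mul_mem (h2 (m + 1)) (mul_mem (ofNat_mem _ 2) (two_pow m)) using 1
      have := fz (m + 1)
      field_simp
      ring
  have h3 := mul_invOfUnit ((1 - 4 * X) * P') 1 (by
    have := ψ_coeff P' 0
    rw [hP', coeff_zero_eq_constantCoeff_apply, P0] at this
    have h : coeff 0 P' = 1 := Subtype.val_injective this.symm
    simpa using h)
  set g := ψ (invOfUnit ((1 - 4 * X) * P') 1) with hg'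
  have h4 : A * ((y + z) * (y - z)) * expand 2 two_ne_zero g = 1 := by
    have := congrArg (fun f => expand 2 two_ne_zero (ψ f)) h3
    simpa only [map_mul, map_sub, map_one, map_ofNat, hP', show ψ X = X from map_X _, expand_X,
      ← h1, ← hg', A] using this
  obtain ⟨G, hG⟩ := lift (f := X * expand 2 two_ne_zero (PowerSeries.mk fun m => coeff m g / (2 * m + 1 : ℕ)))
    fun m => by
      obtain ⟨m, rfl | rfl⟩ := m.even_or_odd'
      · rw [oX]
        exact zero_mem _
      · rw [coeff_succ_X_mul, coeff_expand_mul, coeff_mk]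
        exact mul_mem (coeff m _ : ℤ_[2]).2 (odd_inv (odd_two_mul_add_one m))
  obtain ⟨h, h5, h6⟩ := ex_exp (G := G) (Subtype.val_injective (by
    have := ψ_coeff G 0
    rw [hG] at this
    simpa using this.symm))
  have h7 : d⁄dX _ (ψ h) = (1 + 2 * ψ h) * expand 2 two_ne_zero g := by
    rw [← ψ_d, h6, map_mul, map_add, map_mul, map_one, map_ofNat, ψ_d, hG]
    congr 1
    ext m
    rw [coeff_derivative, coeff_succ_X_mul]
    obtain ⟨m, rfl | rfl⟩ := m.even_or_odd'
    · rw [coeff_expand_mul, coeff_expand_mul, coeff_mk]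
      have : (2 * m + 1 : ℚ_[2]) ≠ 0 := by exact_mod_cast (by omega : 2 * m + 1 ≠ 0)
      push_cast
      field_simp
    · rw [coeff_expand_of_not_dvd _ _ _ (by omega), coeff_expand_of_not_dvd _ _ _ (by omega),
        zero_mul]
  have h8 : A * d⁄dX _ (y + z) * (y - z) - (y + z) * (A * d⁄dX _ (y - z)) = C 2 := by
    refine derivative.ext ?_ ?_
    · rw [map_sub, Derivation.leibniz _ _ (y - z), Derivation.leibniz _ (y + z), hf, hg, derivative_C]
      simp only [smul_eq_mul]
      ring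
    · have : constantCoeff (d⁄dX _ z) = 1 := by
        rw [← coeff_zero_eq_constantCoeff_apply, coeff_derivative, hz, coeff_succ_X_mul]
        simp [b0]
      simp [A, this, hy, a0, show constantCoeff z = 0 by simp [hz]]
      norm_num
  have h0 : constantCoeff (ψ h) = 0 := by
    rw [← coeff_zero_eq_constantCoeff_apply, ψ_coeff]
    simp [h5]
  set B := (1 + 2 * ψ h) * (y - z) with hB
  have B0 : constantCoeff B = 1 := by simp [hB, h0, hy, hz, a0]
  have h9 := PowerSeries.mul_inv_cancel B (by simp [B0])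
  have h10 : (y + z) * B⁻¹ = 1 := by
    refine derivative.ext ?_ (by simp [B0, hy, hz, a0])
    have hA : A ≠ 0 := fun h => by simpa [A] using congrArg constantCoeff h
    have hd : d⁄dX _ B = (1 + 2 * ψ h) * (d⁄dX _ (y - z) + 2 * (y - z) * expand 2 two_ne_zero g) := by
      rw [hB, Derivation.leibniz, two_mul, map_add, map_add, derivative_one, h7]
      simp only [smul_eq_mul]
      ring
    rw [Derivation.leibniz, derivative_inv', derivative_one, hd]
    rw [map_ofNat] at h8
    simp only [smul_eq_mul]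
    refine mul_left_cancel₀ hA ?_
    linear_combination (B⁻¹ ^ 2 * (1 + 2 * ψ h)) * h8 - 2 * B⁻¹ ^ 2 * (1 + 2 * ψ h) * h4
      - A * B⁻¹ * d⁄dX _ (y + z) * h9
  have h11 := congrArg ψ (mul_invOfUnit (1 + h) 1 (by simp [h5]))
  rw [map_mul, map_add, map_one] at h11
  have h12 : X * expand 2 two_ne_zero (PowerSeries.mk fun n => (u n / (2 * n + 1)! : ℚ_[2])) =
      ψ (h * invOfUnit (1 + h) 1) := by
    have h12 := congrArg (expand 2 two_ne_zero) wab
    rw [map_mul, ← hy] at h12
    refine mul_left_cancel₀ (show 2 * y ≠ 0 from fun h => by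
      simpa [hy, a0, map_ofNat] using congrArg constantCoeff h) ?_
    rw [map_mul]
    linear_combination 2 * X * h12 - 2 * z * h11 + ψ (invOfUnit (1 + h) 1) * (B * h10 - (y + z) * h9)
  have h13 := congrArg (coeff (2 * n + 1)) h12
  rw [coeff_succ_X_mul, coeff_expand_mul, coeff_mk, ψ_coeff] at h13
  have h14 := PadicInt.isUnit_den (p := 2) ((u n : ℚ) / (2 * n + 1)!) (by
    push_cast
    rw [h13]
    exact PadicInt.norm_le_one _)
  rw [PadicInt.isUnit_iff, PadicInt.norm_def, PadicInt.coe_natCast,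
    Padic.norm_natCast_eq_one_iff] at h14
  exact coprime_two_left.1 h14

end Pool.Agent.Results.MP_284f77_nt.Yes
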